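import Pool.Agent.MP_8e9e20_co.AE.AllD
import Pool.Agent.MP_8e9e20_co.AE.UpB
import Pool.Agent.MP_8e9e20_co.AE.ConfB
import Pool.Agent.MP_8e9e20_co.AE.Small
import Pool.Agent.AEG.L7
import Pool.Agent.AEG.M1
import Pool.Agent.AEG.R2

set_option autoImplicit false

/-!
# Almost-equidistant sets of diameter one: `g(d) = 2 d - Θ(d^(3/4))`
-/

namespace Pool.Agent.Results.MP_8e9e20_co.SecondOrder

open Filter Topology Asymptotics

/-- `V` is almost-equidistant: every three distinct points of `V` include two at distance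
exactly `1`. -/
def AlmostEquidistant {d : ℕ} (V : Finset (EuclideanSpace ℝ (Fin d))) : Prop :=
  ∀ x ∈ V, ∀ y ∈ V, ∀ z ∈ V, x ≠ y → x ≠ z → y ≠ z →
    dist x y = 1 ∨ dist x z = 1 ∨ dist y z = 1

/-- The cardinalities of the almost-equidistant diameter sets in `ℝ^d` (almost-equidistant sets
of diameter exactly `1`). -/
def cards (d : ℕ) : Set ℕ :=
  {n | ∃ V : Finset (EuclideanSpace ℝ (Fin d)), AlmostEquidistant V ∧
    Metric.diam (V : Set (EuclideanSpace ℝ (Fin d))) = 1 ∧ V.card = n}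

/-- `g(d)`: the largest cardinality of an almost-equidistant diameter set in `ℝ^d`
(see the first part of `result`). -/
noncomputable def g (d : ℕ) : ℕ := sSup (cards d)

theorem cards_bdd (d : ℕ) : ∀ n ∈ cards d, n ≤ 2 * d + 1 := by
  rintro n ⟨V, hV, hd, rfl⟩
  exact AE.upper_bound V ⟨hV, hd⟩

theorem two_mem (d : ℕ) (hd : 1 ≤ d) : 2 ∈ cards d := by
  classical
  set e : EuclideanSpace ℝ (Fin d) := EuclideanSpace.single ⟨0, hd⟩ 1 with he
  have h1 : ‖e‖ = 1 := by simp [he]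
  have hne : (0 : EuclideanSpace ℝ (Fin d)) ≠ e := by
    intro h
    rw [← h, norm_zero] at h1
    exact zero_ne_one h1
  refine ⟨{0, e}, ?_, ?_, ?_⟩
  · intro x hx y hy z hz hxy hxz hyz
    simp only [Finset.mem_insert, Finset.mem_singleton] at hx hy hz
    rcases hx with rfl | rfl <;> rcases hy with rfl | rfl <;> rcases hz with rfl | rfl <;>
      simp_all
  · rw [Finset.coe_insert, Finset.coe_singleton, Metric.diam_pair, dist_zero_left, h1]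
  · exact Finset.card_pair hne

theorem isGreatest_g (d : ℕ) (hd : 1 ≤ d) : IsGreatest (cards d) (g d) :=
  ⟨Nat.sSup_mem ⟨2, two_mem d hd⟩ ⟨2 * d + 1, cards_bdd d⟩,
    fun _ hn => le_csSup ⟨2 * d + 1, cards_bdd d⟩ hn⟩

theorem le_g {d n : ℕ} (h : n ∈ cards d) : n ≤ g d :=
  le_csSup ⟨2 * d + 1, cards_bdd d⟩ h

theorem lower (d : ℕ) (hd : 1 ≤ d) : 2 * (d : ℝ) - 6 * (d : ℝ) ^ (3 / 4 : ℝ) ≤ g d := by
  obtain ⟨n, hn, hle⟩ := AE.conf_all d
  rcases lt_or_ge n 3 with h3 | h3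
  · have h2 : (2 : ℕ) ≤ g d := le_g (two_mem d hd)
    have hn2 : (n : ℝ) ≤ 2 := by exact_mod_cast (by omega : n ≤ 2)
    have hg2 : (2 : ℝ) ≤ g d := by exact_mod_cast h2
    linarith
  · obtain ⟨V, ⟨hV1, hV2⟩, hcard⟩ := AE.Conf.exists_set h3 hn
    have : n ≤ g d := le_g ⟨V, hV1, hV2, hcard⟩
    have : (n : ℝ) ≤ g d := by exact_mod_cast this
    linarith

theorem upper (d : ℕ) (hd : 1 ≤ d) : g d ≤ 2 * d + 1 :=
  cards_bdd d _ (isGreatest_g d hd).1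

theorem upper_gen : ∃ c : ℝ, 0 < c ∧ c ≤ 1 ∧ ∀ d : ℕ, 1 ≤ d →
    (g d : ℝ) ≤ 2 * d + 2 - c * (d : ℝ) ^ (3 / 4 : ℝ) := by
  obtain ⟨c, hc, hc1, h⟩ := AEG.arith_sharp
  refine ⟨c, hc, hc1, fun d hd => ?_⟩
  have hg := (isGreatest_g d hd).1
  have hle : g d ≤ 2 * d + 1 := cards_bdd d _ hg
  obtain ⟨V, hae, hdiam, hcard⟩ := hg
  apply h d (g d) hd hle
  intro t ht ht3
  obtain ⟨E, κ, y, hy⟩ := AEG.frame_of_set V hae hdiam
  have hdl : AEG.dl (Fin V.card) (EuclideanSpace ℝ (Fin d)) = 2 * (d : ℝ) + 2 - g d := by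
    rw [AEG.dl, finrank_euclideanSpace_fin, AEG.nv, Fintype.card_fin, hcard]
  have hnv : AEG.nv (Fin V.card) = g d := by
    rw [AEG.nv, Fintype.card_fin, hcard]
  have hleR : (g d : ℝ) ≤ 2 * d + 1 := by exact_mod_cast hle
  have hb := AEG.sharp_bound hy t (by rw [hdl]; linarith) ht (by rw [hdl, ht3])
  rw [hnv] at hb
  exact hb

theorem theta : (fun d : ℕ => 2 * (d : ℝ) - g d) =Θ[atTop]
    (fun d : ℕ => (d : ℝ) ^ (3 / 4 : ℝ)) := by
  obtain ⟨c, hc, _, h⟩ := upper_gen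
  have hlim : Tendsto (fun d : ℕ => (d : ℝ) ^ (3 / 4 : ℝ)) atTop atTop :=
    (tendsto_rpow_atTop (by norm_num)).comp tendsto_natCast_atTop_atTop
  have hbig : ∀ᶠ d : ℕ in atTop, 4 / c ≤ (d : ℝ) ^ (3 / 4 : ℝ) :=
    hlim.eventually_ge_atTop _
  refine ⟨Asymptotics.IsBigO.of_bound 6 ?_, Asymptotics.IsBigO.of_bound (2 / c) ?_⟩
  · filter_upwards [eventually_ge_atTop 1, hbig] with d hd hb
    have h1 := h d hd
    have h2 := lower d hd
    have h3 : 4 ≤ c * (d : ℝ) ^ (3 / 4 : ℝ) := by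
      have := mul_le_mul_of_nonneg_left hb hc.le
      rwa [mul_div_cancel₀ _ hc.ne'] at this
    rw [Real.norm_of_nonneg (by linarith), Real.norm_of_nonneg (by positivity)]
    linarith
  · filter_upwards [eventually_ge_atTop 1, hbig] with d hd hb
    have h1 := h d hd
    have h3 : 4 ≤ c * (d : ℝ) ^ (3 / 4 : ℝ) := by
      have := mul_le_mul_of_nonneg_left hb hc.le
      rwa [mul_div_cancel₀ _ hc.ne'] at this
    rw [Real.norm_of_nonneg (by positivity), Real.norm_of_nonneg (by linarith),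
      div_mul_eq_mul_div, le_div_iff₀ hc]
    nlinarith

/-- **Main result.** For every `d ≥ 1` the maximum `g(d)` exists, and with an absolute constant
`c > 0`: `2d - 6 d^(3/4) ≤ g(d) ≤ 2d + 2 - c d^(3/4)`, also `g(d) ≤ 2d + 1`.
Hence `2d - g(d) = Θ(d^(3/4))`.  Moreover `g(1) = 3`, `g(2) = 5`. -/
theorem result :
    (∃ c : ℝ, 0 < c ∧ ∀ d : ℕ, 1 ≤ d → IsGreatest (cards d) (g d) ∧
        2 * (d : ℝ) - 6 * (d : ℝ) ^ (3 / 4 : ℝ) ≤ g d ∧
        (g d : ℝ) ≤ 2 * d + 2 - c * (d : ℝ) ^ (3 / 4 : ℝ) ∧ g d ≤ 2 * d + 1) ∧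
    (fun d : ℕ => 2 * (d : ℝ) - g d) =Θ[atTop] (fun d : ℕ => (d : ℝ) ^ (3 / 4 : ℝ)) ∧
    g 1 = 3 ∧ g 2 = 5 := by
  obtain ⟨c, hc, _, h1⟩ := upper_gen
  refine ⟨⟨c, hc, fun d hd => ⟨isGreatest_g d hd, lower d hd, h1 d hd, upper d hd⟩⟩,
    theta, ?_, ?_⟩
  · obtain ⟨V, ⟨h1, h2⟩, h3⟩ := AE.exists_one
    exact le_antisymm (upper 1 le_rfl) (le_g ⟨V, h1, h2, h3⟩)
  · obtain ⟨V, ⟨h1, h2⟩, h3⟩ := AE.exists_two
    exact le_antisymm (upper 2 (by norm_num)) (le_g ⟨V, h1, h2, h3⟩)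

end Pool.Agent.Results.MP_8e9e20_co.SecondOrder
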